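import Mathlib
import Pool.Agent.Lib.Recon.LocalFinal
import Pool.Agent.Sep.Core
import Pool.Agent.Sep.Hypo

/-!
# The number of reconstructions of a deck

If a deck has two non-isomorphic reconstructions, each of its reconstructions `H` has two vertices
`u`, `v` distinguished by few vertices, and `H` is determined by a card `H - u`, the vertex `v`, one
bit, and the vertices which distinguish `u` and `v`.
-/

set_option autoImplicit false

open Finset

namespace Pool.Agent.RNum

open Pool.Agent.Lib.Recon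

/-! ### the code -/

/-- the code of `H`: `a` is the index of the card, `b` the image of `v`, `c` the bit, `t` the list
of the distinguishing vertices (and `b`) -/
structure Cd {V : Type} {k : ℕ} (G H : SimpleGraph V) (a b : V) (c : Prop) (t : Fin k → V) :
    Prop where
  ex : ∃ (σ : Equiv.Perm V) (v : V), v ≠ a ∧ σ a = a ∧ σ v = b ∧
    (∀ x y, x ≠ a → y ≠ a → (H.Adj x y ↔ G.Adj (σ x) (σ y))) ∧ (H.Adj v a ↔ c) ∧
    ∀ x, x ≠ a → x ≠ v → ((H.Adj x a ↔ H.Adj x v) ↔ ¬ ∃ j, t j = σ x)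

/-- graphs with the same code are isomorphic -/
theorem cd_iso {V : Type} {k : ℕ} {G H H' : SimpleGraph V} {a b : V} {c : Prop} {t : Fin k → V}
    (h : Cd G H a b c t) (h' : Cd G H' a b c t) :
    ∃ α : V ≃ V, ∀ x y, H.Adj x y ↔ H'.Adj (α x) (α y) := by
  obtain ⟨σ, v, hva, hσa, hσv, hσ, hc, hZ⟩ := h.ex
  obtain ⟨σ', v', hva', hσa', hσv', hσ', hc', hZ'⟩ := h'.ex
  refine ⟨σ.trans σ'.symm, ?_⟩
  have hαa : (σ.trans σ'.symm) a = a := by
    rw [Equiv.trans_apply, hσa, Equiv.symm_apply_eq, hσa']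
  have hαv : (σ.trans σ'.symm) v = v' := by
    rw [Equiv.trans_apply, hσv, Equiv.symm_apply_eq, hσv']
  have hαn : ∀ x, x ≠ a → (σ.trans σ'.symm) x ≠ a := by
    intro x hx he
    exact hx ((σ.trans σ'.symm).injective (he.trans hαa.symm))
  have hs : ∀ x, σ' ((σ.trans σ'.symm) x) = σ x := fun x => by simp
  have hoff : ∀ x y, x ≠ a → y ≠ a →
      (H.Adj x y ↔ H'.Adj ((σ.trans σ'.symm) x) ((σ.trans σ'.symm) y)) := by
    intro x y hx hy
    rw [hσ x y hx hy, hσ' _ _ (hαn x hx) (hαn y hy), hs, hs]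
  have hon : ∀ x, x ≠ a → (H.Adj x a ↔ H'.Adj ((σ.trans σ'.symm) x) a) := by
    intro x hx
    by_cases hxv : x = v
    · rw [hxv, hαv, hc, hc']
    · have hxv' : (σ.trans σ'.symm) x ≠ v' := by
        intro he
        exact hxv ((σ.trans σ'.symm).injective (he.trans hαv.symm))
      have h1 := hZ x hx hxv
      have h2 := hZ' _ (hαn x hx) hxv'
      have h3 := hoff x v hx hva
      rw [hαv] at h3
      rw [hs] at h2
      have h4 : (H.Adj x a ↔ H.Adj x v) ↔
          (H'.Adj ((σ.trans σ'.symm) x) a ↔ H'.Adj ((σ.trans σ'.symm) x) v') := h1.trans h2.symm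
      rw [h3] at h4
      clear h1 h2 h3
      tauto
  intro x y
  by_cases hx : x = a
  · by_cases hy : y = a
    · rw [hx, hy]
      simp
    · rw [hx, hαa, H.adj_comm, hon y hy, H'.adj_comm]
  · by_cases hy : y = a
    · rw [hy, hαa, hon x hx]
    · exact hoff x y hx hy

/-- a list with prescribed entries -/
theorem exists_list {V : Type} [DecidableEq V] {k : ℕ} (Z : Finset V) (b : V) (hk : Z.card ≤ k) :
    ∃ t : Fin k → V, ∀ z, z ≠ b → ((∃ j, t j = z) ↔ z ∈ Z) := by
  refine ⟨fun j => if h : (j : ℕ) < Z.card then (Z.equivFin.symm ⟨j, h⟩ : V) else b, ?_⟩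
  intro z hz
  constructor
  · rintro ⟨j, hj⟩
    by_cases h : (j : ℕ) < Z.card
    · simp only [h, dite_true] at hj
      rw [← hj]
      exact (Z.equivFin.symm ⟨j, h⟩).2
    · simp only [h, dite_false] at hj
      exact absurd hj.symm hz
  · intro hzZ
    refine ⟨⟨(Z.equivFin ⟨z, hzZ⟩ : ℕ), lt_of_lt_of_le (Z.equivFin ⟨z, hzZ⟩).2 hk⟩, ?_⟩
    simp

/-- a near twin pair gives a code -/
theorem exists_cd {V : Type} [Fintype V] [DecidableEq V] {k : ℕ} {G H : SimpleGraph V} {u v : V} (huv : u ≠ v)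
    (hcard : CardIso G H u u) (hd : (dset H u v).card ≤ k) :
    ∃ (b : V) (c : Bool) (t : Fin k → V), Cd G H u b (c = true) t := by

  obtain ⟨σ, h1, h2⟩ := hcard.symm
  obtain ⟨t, ht⟩ := exists_list (k := k) ((dset H u v).image σ) (σ v)
    (card_image_le.trans hd)
  obtain ⟨c, hc⟩ : ∃ c : Bool, (H.Adj v u ↔ c = true) := by
    by_cases h : H.Adj v u
    · exact ⟨true, by simp [h]⟩
    · exact ⟨false, by simp [h]⟩
  refine ⟨σ v, c, t, ⟨σ, v, huv.symm, h1, rfl, h2, hc, ?_⟩⟩
  intro x hx hxv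
  rw [ht (σ x) (fun h => hxv (σ.injective h))]
  have h3 : σ x ∈ (dset H u v).image σ ↔ x ∈ dset H u v := by
    constructor
    · intro h
      obtain ⟨y, hy, he⟩ := mem_image.1 h
      rwa [← σ.injective he]
    · exact fun h => mem_image_of_mem _ h
  rw [h3, mem_dset]
  tauto

/-- counting codes -/
theorem card_le_codes {V ι : Type} [Fintype V] [Fintype ι] {k : ℕ} (G : SimpleGraph V)
    (H : ι → SimpleGraph V)
    (hne : ∀ i j, i ≠ j → ¬ ∃ α : V ≃ V, ∀ x y, (H i).Adj x y ↔ (H j).Adj (α x) (α y))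
    (hcode : ∀ i, ∃ (a b : V) (c : Bool) (t : Fin k → V), Cd G (H i) a b (c = true) t) :
    Fintype.card ι ≤ 2 * Fintype.card V ^ (k + 2) := by
  classical
  choose a b c t h using hcode
  have hinj : Function.Injective (fun i => (a i, b i, c i, t i)) := by
    intro i j hij
    by_contra hne'
    simp only [Prod.mk.injEq] at hij
    obtain ⟨h1, h2, h3, h4⟩ := hij
    have h5 := h j
    rw [← h1, ← h2, ← h3, ← h4] at h5
    exact hne i j hne' (cd_iso (h i) h5)
  have h1 := Fintype.card_le_of_injective _ hinj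
  refine h1.trans (le_of_eq ?_)
  simp only [Fintype.card_prod, Fintype.card_bool, Fintype.card_fun, Fintype.card_fin]
  ring

end Pool.Agent.RNum
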