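import Mathlib
import Pool.Agent.RNum.Base

/-!
# The number of reconstructions of a deck: the final theorem
-/

set_option autoImplicit false

open Finset Classical

namespace Pool.Agent.RNum

open Pool.Agent.Lib.Recon

/-- disconnected graphs are reconstructible -/
theorem conn_of {V : Type} [Fintype V] (K L : SimpleGraph V) (hn : 3 ≤ Fintype.card V)
    (hyp : ∀ v, CardIso K L v v)
    (hne : ¬ ∃ α : V ≃ V, ∀ x y, K.Adj x y ↔ L.Adj (α x) (α y)) : K.Connected := by
  by_contra hcon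
  apply hne
  refine Pool.Agent.Sep.core K L (Equiv.refl V) ∅ 2 ?_ ?_ ?_ ?_
  · intro w _
    obtain ⟨σ, h1, h2⟩ := hyp w
    have h3 : ∀ x, x ≠ w ↔ σ x ≠ (Equiv.refl V) w := by
      intro x
      rw [Equiv.refl_apply]
      constructor
      · intro hx he
        exact hx (σ.injective (he.trans h1.symm))
      · intro hx he
        exact hx (by rw [he, h1])
    refine ⟨σ.subtypeEquiv h3, ?_, ?_⟩
    · intro x y
      exact h2 x.1 y.1 x.2 y.2
    · intro x
      simp
  · rw [Set.compl_empty, Set.ncard_univ, Nat.card_eq_fintype_card]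
    exact hn
  · have h1 : Nat.card (K.induce (∅ : Set V) ≃g K.induce (∅ : Set V)) = 1 := by
      rw [Nat.card_eq_one_iff_unique]
      refine ⟨⟨fun a b => ?_⟩, ⟨SimpleGraph.Iso.refl⟩⟩
      ext x
      exact absurd x.2 (Set.notMem_empty _)
    rw [h1]
    norm_num
  · by_contra hle
    apply hcon
    have h1 : Nat.card (K.induce ((∅ : Set V)ᶜ)).ConnectedComponent ≤ 1 := by omega
    have h2 : Subsingleton (K.induce ((∅ : Set V)ᶜ)).ConnectedComponent :=
      Finite.card_le_one_iff_subsingleton.1 h1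
    have hV : Nonempty V := Fintype.card_pos_iff.1 (by omega)
    refine ⟨fun x y => ?_⟩
    have hx : x ∈ ((∅ : Set V)ᶜ) := by simp
    have hy : y ∈ ((∅ : Set V)ᶜ) := by simp
    have h3 : (K.induce ((∅ : Set V)ᶜ)).Reachable ⟨x, hx⟩ ⟨y, hy⟩ :=
      SimpleGraph.ConnectedComponent.exact (h2.elim _ _)
    exact h3.map (SimpleGraph.Embedding.induce ((∅ : Set V)ᶜ)).toHom

/-- hypomorphic graphs which are not isomorphic have near twins -/
theorem exists_pair {V : Type} [Fintype V] (K L : SimpleGraph V)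
    (hn : 3 ≤ Fintype.card V) (D : ℕ) (hyp : ∀ v, CardIso K L v v)
    (hne : ¬ ∃ α : V ≃ V, ∀ x y, K.Adj x y ↔ L.Adj (α x) (α y)) (hD : ∀ v, (nb K v).card ≤ D) :
    ∃ u v, u ≠ v ∧ ((dset K u v).card : ℝ) ≤ 16 * (Real.logb 2 D) ^ 2 := by
  by_contra hcon
  push Not at hcon
  apply hne
  refine local_recon K L (Equiv.refl V) hyp hn (conn_of K L hn hyp hne) D 1 hD ?_ ?_
  · intro u S hS
    have h1 : ∀ a ∈ S, a = u := by
      intro a ha
      by_contra hau
      have h2 := hcon u a (Ne.symm hau)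
      have h3 : dset K u a = ∅ := by
        rw [Finset.eq_empty_iff_forall_notMem]
        intro w hw
        rw [mem_dset] at hw
        exact hw.2.2 (hS a ha w hw.1 hw.2.1)
      rw [h3, card_empty, Nat.cast_zero] at h2
      have h4 := sq_nonneg (Real.logb 2 D)
      linarith
    rw [card_le_one]
    intro a ha b hb
    rw [h1 a ha, h1 b hb]
  · intro u v huv
    have h1 : u ≠ v := by
      rintro rfl
      exact huv fun w _ _ => Iff.rfl
    have h2 := (hcon u v h1).le
    refine le_trans (le_of_eq ?_) h2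
    push_cast
    ring

/-- degrees are reconstructible -/
theorem nb_card {V : Type} [Fintype V] (K L : SimpleGraph V)
    (hn : 3 ≤ Fintype.card V) (hyp : ∀ v, CardIso K L v v) (v : V) :
    (nb K v).card = (nb L v).card := by
  have h1 := Pool.Agent.Sep.Hypo_.degrees_eq K L hn (fun w => by
    obtain ⟨σ, h1, h2⟩ := hyp w
    refine ⟨σ, h1, fun x hx y hy => h2 x y (mem_erase.1 hx).1 (mem_erase.1 hy).1⟩) v
  have h2 : ∀ M : SimpleGraph V, (nb M v).card = M.degree v := by
    intro M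
    rw [← SimpleGraph.card_neighborFinset_eq_degree]
    congr 1
    ext w
    rw [mem_nb, SimpleGraph.mem_neighborFinset]
  rw [h2, h2]
  exact h1

theorem CardIso_trans {V : Type} {G H K : SimpleGraph V} {v : V} (h : CardIso G H v v)
    (h' : CardIso H K v v) : CardIso G K v v := by
  obtain ⟨σ, h1, h2⟩ := h
  obtain ⟨τ, h3, h4⟩ := h'
  refine ⟨σ.trans τ, by rw [Equiv.trans_apply, h1, h3], fun x y hx hy => ?_⟩
  have hn : ∀ z, z ≠ v → σ z ≠ v := fun z hz he => hz (σ.injective (he.trans h1.symm))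
  rw [h2 x y hx hy, h4 _ _ (hn x hx) (hn y hy)]
  rfl

/-- near twins in every reconstruction, from a degree bound for one of them -/
theorem pairs {V ι : Type} [Fintype V] (G : SimpleGraph V)
    (hn : 3 ≤ Fintype.card V) (D : ℕ)
    (hD : (∀ v, (nb G v).card ≤ D) ∨ ∀ v, (nb Gᶜ v).card ≤ D) (H : ι → SimpleGraph V)
    (hyp : ∀ i v, CardIso G (H i) v v)
    (hne : ∀ i j, i ≠ j → ¬ ∃ α : V ≃ V, ∀ x y, (H i).Adj x y ↔ (H j).Adj (α x) (α y))
    (i j : ι) (hij : i ≠ j) :
    ∃ u v, u ≠ v ∧ ((dset (H i) u v).card : ℝ) ≤ 16 * (Real.logb 2 D) ^ 2 := by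
  have hyp' : ∀ v, CardIso (H i) (H j) v v := fun v =>
    CardIso_trans (hyp i v).symm (hyp j v)
  rcases hD with hD | hD
  · refine exists_pair (H i) (H j) hn D hyp' (hne i j hij) fun v => ?_
    rw [← nb_card G (H i) hn (hyp i)]
    exact hD v
  · obtain ⟨u, v, huv, h⟩ := exists_pair (H i)ᶜ (H j)ᶜ hn D (fun v => (hyp' v).compl)
      (fun h => hne i j hij (iso_of_compl h)) fun v => by
        rw [← nb_card Gᶜ (H i)ᶜ hn (fun v => (hyp i v).compl)]
        exact hD v
    rw [dset_compl] at h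
    exact ⟨u, v, huv, h⟩

/-- **The number of reconstructions**, for graphs on the same vertex set -/
theorem number {V ι : Type} [Fintype V] [Fintype ι] (G : SimpleGraph V)
    (hn : 3 ≤ Fintype.card V) (D : ℕ)
    (hD : (∀ v, (nb G v).card ≤ D) ∨ ∀ v, (nb Gᶜ v).card ≤ D) (H : ι → SimpleGraph V)
    (hyp : ∀ i v, CardIso G (H i) v v)
    (hne : ∀ i j, i ≠ j → ¬ ∃ α : V ≃ V, ∀ x y, (H i).Adj x y ↔ (H j).Adj (α x) (α y)) :
    (Fintype.card ι : ℝ) ≤ (Fintype.card V : ℝ) ^ (16 * (Real.logb 2 D) ^ 2 + 3) := by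
  have hnR : (3 : ℝ) ≤ Fintype.card V := by exact_mod_cast hn
  have hL : 0 ≤ 16 * (Real.logb 2 D) ^ 2 := by positivity
  by_cases hcard : Fintype.card ι ≤ 1
  · have h1 : (Fintype.card ι : ℝ) ≤ 1 := by exact_mod_cast hcard
    exact h1.trans (Real.one_le_rpow (by linarith) (by linarith))
  have hcode : ∀ i, ∃ (a b : V) (c : Bool) (t : Fin ⌊16 * (Real.logb 2 D) ^ 2⌋₊ → V),
      Cd G (H i) a b (c = true) t := by
    intro i
    have hnt : Nontrivial ι := Fintype.one_lt_card_iff_nontrivial.1 (by omega)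
    obtain ⟨j, hj⟩ := exists_ne i
    obtain ⟨u, v, huv, h⟩ := pairs G hn D hD H hyp hne i j hj.symm
    exact ⟨u, exists_cd huv (hyp i u) (Nat.le_floor h)⟩
  have h1 := card_le_codes G H hne hcode
  have h2 : (Fintype.card ι : ℝ) ≤
      2 * (Fintype.card V : ℝ) ^ (⌊16 * (Real.logb 2 D) ^ 2⌋₊ + 2) := by exact_mod_cast h1
  calc (Fintype.card ι : ℝ) ≤ 2 * (Fintype.card V : ℝ) ^ (⌊16 * (Real.logb 2 D) ^ 2⌋₊ + 2) := h2
    _ ≤ (Fintype.card V : ℝ) * (Fintype.card V : ℝ) ^ (⌊16 * (Real.logb 2 D) ^ 2⌋₊ + 2) := by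
        gcongr
        linarith
    _ = (Fintype.card V : ℝ) ^ (((⌊16 * (Real.logb 2 D) ^ 2⌋₊ + 3 : ℕ)) : ℝ) := by
        rw [Real.rpow_natCast]
        ring
    _ ≤ _ := by
        apply Real.rpow_le_rpow_of_exponent_le (by linarith)
        push_cast
        linarith [Nat.floor_le hL]

/-- **The number of reconstructions**, for truncated clique lattices -/
theorem number_clique {V : Type} [Fintype V] (G : SimpleGraph V) (hn : 3 ≤ Fintype.card V) (D : ℕ)
    (hD : (∀ v, (G.neighborSet v).ncard ≤ D) ∨ ∀ v, (Gᶜ.neighborSet v).ncard ≤ D)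
    (ι : Type) [Fintype ι] (W : ι → Type) [∀ i, Fintype (W i)] (H : ∀ i, SimpleGraph (W i))
    (f : ∀ i, V ≃ W i)
    (hdeck : ∀ i, ∀ v : V,
      Nonempty ({s : Finset V // s.Nonempty ∧ G.IsClique (s : Set V) ∧ v ∉ s} ≃o
        {t : Finset (W i) // t.Nonempty ∧ (H i).IsClique (t : Set (W i)) ∧ f i v ∉ t}))
    (hne : ∀ i j, i ≠ j →
      ¬ Nonempty ({s : Finset (W i) // s.Nonempty ∧ (H i).IsClique (s : Set (W i))} ≃o
        {t : Finset (W j) // t.Nonempty ∧ (H j).IsClique (t : Set (W j))})) :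
    (Fintype.card ι : ℝ) ≤ (Fintype.card V : ℝ) ^ (16 * (Real.logb 2 D) ^ 2 + 3) := by
  have hnb : ∀ (K : SimpleGraph V) (v : V), (nb K v).card = (K.neighborSet v).ncard := by
    intro K v
    rw [← Set.ncard_coe_finset (nb K v)]
    congr 1
    ext w
    rw [Finset.mem_coe, mem_nb]
    rfl
  refine number G hn D ?_ (fun i => (H i).comap (f i)) ?_ ?_
  · rcases hD with hD | hD
    · left
      intro v
      rw [hnb]
      exact hD v
    · right
      intro v
      rw [hnb]
      exact hD v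
  · intro i v
    obtain ⟨e⟩ := hdeck i v
    obtain ⟨σ, h1, h2⟩ := cardIso_of_orderIso G (H i) (f i) v e
    refine ⟨σ.trans (f i).symm, by rw [Equiv.trans_apply, h1, Equiv.symm_apply_apply], ?_⟩
    intro x y hx hy
    rw [h2 x y hx hy]
    simp
  · intro i j hij hα
    apply hne i j hij
    obtain ⟨α, hα⟩ := hα
    apply orderIso_of_iso
    refine ⟨((f i).symm.trans α).trans (f j), fun x y => ?_⟩
    have h1 := hα ((f i).symm x) ((f i).symm y)
    simp only [SimpleGraph.comap_adj, Equiv.apply_symm_apply] at h1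
    exact h1

end Pool.Agent.RNum
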