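import Mathlib
import Pool.Agent.RNum.Final

/-!
# The number of reconstructions of a graph with near twins

If two vertices of `G` are distinguished by at most `k ≥ 1` others, so are two vertices of every
reconstruction, because one card shows it; hence `G` has at most `2 n ^ (k + 2)` reconstructions.
-/

set_option autoImplicit false

open Finset Classical

namespace Pool.Agent.RNum

open Pool.Agent.Lib.Recon

/-- near twins of `G` are seen in one card, so `H` has near twins -/
theorem near_transfer {V : Type} [Fintype V] (G H : SimpleGraph V) (hn : 3 ≤ Fintype.card V)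
    (k : ℕ) (hk : 1 ≤ k) (hyp : ∀ v, CardIso G H v v) (u v : V) (huv : u ≠ v)
    (h : (dset G u v).card ≤ k) :
    ∃ u' v', u' ≠ v' ∧ (dset H u' v').card ≤ k := by
  -- a vertex `w` after whose deletion at most `k - 1` vertices distinguish `u` and `v`
  obtain ⟨w, hwu, hwv, hw⟩ : ∃ w, w ≠ u ∧ w ≠ v ∧ ((dset G u v).erase w).card ≤ k - 1 := by
    by_cases hd : (dset G u v).Nonempty
    · obtain ⟨w, hw⟩ := hd
      refine ⟨w, (mem_dset.1 hw).1, (mem_dset.1 hw).2.1, ?_⟩
      rw [card_erase_of_mem hw]
      omega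
    · rw [not_nonempty_iff_eq_empty] at hd
      obtain ⟨w, hw⟩ : ∃ w, w ∉ ({u, v} : Finset V) := by
        by_contra hcon
        push Not at hcon
        have h1 : (univ : Finset V) ⊆ {u, v} := fun x _ => hcon x
        have h2 := card_le_card h1
        rw [card_univ] at h2
        have h3 : ({u, v} : Finset V).card ≤ 2 := card_le_two
        omega
      rw [mem_insert, mem_singleton, not_or] at hw
      refine ⟨w, hw.1, hw.2, ?_⟩
      rw [hd]
      simp
  obtain ⟨σ, hσw, hσ⟩ := hyp w
  refine ⟨σ u, σ v, fun he => huv (σ.injective he), ?_⟩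
  have hsub : dset H (σ u) (σ v) ⊆ insert w (((dset G u v).erase w).image σ) := by
    intro z hz
    rw [mem_dset] at hz
    obtain ⟨h1, h2, h3⟩ := hz
    rw [mem_insert]
    by_cases hzw : z = w
    · exact Or.inl hzw
    · right
      obtain ⟨y, rfl⟩ := σ.surjective z
      have hyw : y ≠ w := by
        rintro rfl
        exact hzw hσw
      refine mem_image_of_mem _ (mem_erase.2 ⟨hyw, mem_dset.2 ⟨?_, ?_, ?_⟩⟩)
      · rintro rfl
        exact h1 rfl
      · rintro rfl
        exact h2 rfl
      · rw [hσ y u hyw hwu.symm, hσ y v hyw hwv.symm]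
        exact h3
  calc (dset H (σ u) (σ v)).card ≤ (insert w (((dset G u v).erase w).image σ)).card :=
        card_le_card hsub
    _ ≤ (((dset G u v).erase w).image σ).card + 1 := card_insert_le _ _
    _ ≤ ((dset G u v).erase w).card + 1 :=
        Nat.add_le_add_right card_image_le 1
    _ ≤ k := by omega

/-- **The number of reconstructions of a graph with near twins**, on the same vertex set -/
theorem number_near {V ι : Type} [Fintype V] [Fintype ι] (G : SimpleGraph V)
    (hn : 3 ≤ Fintype.card V) (k : ℕ) (hk : 1 ≤ k) (u v : V) (huv : u ≠ v)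
    (h : (dset G u v).card ≤ k) (H : ι → SimpleGraph V)
    (hyp : ∀ i v, CardIso G (H i) v v)
    (hne : ∀ i j, i ≠ j → ¬ ∃ α : V ≃ V, ∀ x y, (H i).Adj x y ↔ (H j).Adj (α x) (α y)) :
    Fintype.card ι ≤ Fintype.card V ^ (k + 3) := by
  have hcode : ∀ i, ∃ (a b : V) (c : Bool) (t : Fin k → V), Cd G (H i) a b (c = true) t := by
    intro i
    obtain ⟨u', v', huv', h'⟩ := near_transfer G (H i) hn k hk (hyp i) u v huv h
    exact ⟨u', exists_cd huv' (hyp i u') h'⟩
  have h1 := card_le_codes G H hne hcode
  calc Fintype.card ι ≤ 2 * Fintype.card V ^ (k + 2) := h1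
    _ ≤ Fintype.card V * Fintype.card V ^ (k + 2) := by
        gcongr
        omega
    _ = Fintype.card V ^ (k + 3) := by ring

/-- the same for truncated clique lattices -/
theorem number_near_clique {V : Type} [Fintype V] (G : SimpleGraph V)
    (hn : 3 ≤ Fintype.card V) (k : ℕ) (hk : 1 ≤ k) (u v : V) (huv : u ≠ v)
    (h : {w : V | w ≠ u ∧ w ≠ v ∧ ¬ (G.Adj w u ↔ G.Adj w v)}.ncard ≤ k)
    (ι : Type) [Fintype ι] (W : ι → Type) [∀ i, Fintype (W i)] (H : ∀ i, SimpleGraph (W i))
    (f : ∀ i, V ≃ W i)
    (hdeck : ∀ i, ∀ v : V,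
      Nonempty ({s : Finset V // s.Nonempty ∧ G.IsClique (s : Set V) ∧ v ∉ s} ≃o
        {t : Finset (W i) // t.Nonempty ∧ (H i).IsClique (t : Set (W i)) ∧ f i v ∉ t}))
    (hne : ∀ i j, i ≠ j →
      ¬ Nonempty ({s : Finset (W i) // s.Nonempty ∧ (H i).IsClique (s : Set (W i))} ≃o
        {t : Finset (W j) // t.Nonempty ∧ (H j).IsClique (t : Set (W j))})) :
    Fintype.card ι ≤ Fintype.card V ^ (k + 3) := by
  have hk' : (dset G u v).card ≤ k := by
    rw [← Set.ncard_coe_finset (dset G u v)]
    refine le_trans (le_of_eq ?_) h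
    congr 1
    ext w
    rw [Finset.mem_coe, mem_dset]
    rfl
  refine number_near G hn k hk u v huv hk' (fun i => (H i).comap (f i)) ?_ ?_
  · intro i v
    obtain ⟨e⟩ := hdeck i v
    obtain ⟨σ, h1, h2⟩ := cardIso_of_orderIso G (H i) (f i) v e
    refine ⟨σ.trans (f i).symm, by rw [Equiv.trans_apply, h1, Equiv.symm_apply_apply], ?_⟩
    intro x y hx hy
    rw [h2 x y hx hy]
    simp
  · intro i j hij hα
    apply hne i j hij
    obtain ⟨α, hα⟩ := hα
    apply orderIso_of_iso
    refine ⟨((f i).symm.trans α).trans (f j), fun x y => ?_⟩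
    have h1 := hα ((f i).symm x) ((f i).symm y)
    simp only [SimpleGraph.comap_adj, Equiv.apply_symm_apply] at h1
    exact h1

end Pool.Agent.RNum
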